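import Pool.Agent.Lib.MP_b1555f_an.Main
import Pool.Agent.Lib.MP_b1555f_an.Vert
import Pool.Agent.Lib.MP_b1555f_an.Ip
import Pool.Agent.Lib.MP_b1555f_an.Bf
import Pool.Agent.Lib.MP_b1555f_an.Var
import Pool.Agent.Lib.MP_b1555f_an.Surj
import Pool.Agent.Lib.MP_b1555f_an.Orth
import Pool.Agent.Lib.MP_b1555f_an.Rep
import Pool.Agent.Lib.MP_b1555f_an.Key
import Pool.Agent.Lib.MP_b1555f_an.Fac
import Pool.Agent.Lib.MP_b1555f_an.Sep

set_option autoImplicit false

open Polynomial MeasureTheory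

namespace Pool.Agent.Results.MP_b1555f_an.CompleteInterlacing

open Pool.Agent.Lib.MP_b1555f_an in
/-- Triangle and square: the positive zeros of the Bergman polynomials of any two degrees
`m < m' ≤ m + N` strictly interlace; `t m v` is the `v`-th largest root of `q`, counted from 0. -/
theorem result :
    ∀ N : ℕ, (N = 3 ∨ N = 4) → ∃ t : ℕ → ℕ → ℝ,
      (∀ (m : ℕ) (p : Polynomial ℂ),
        (p.Monic ∧ p.natDegree = m ∧ ∀ r : Polynomial ℂ, r.natDegree < m →
          ∫ z in interior (convexHull ℝ {w : ℂ | w ^ N = 1}),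
            p.eval z * (starRingEnd ℂ) (r.eval z) = 0) ↔
        p = X ^ (m % N) *
          (∏ v ∈ Finset.range (m / N), (X - C ((t m v : ℝ) : ℂ))).comp (X ^ N)) ∧
      (∀ m v : ℕ, v < m / N → 0 < t m v ∧ t m v < 1) ∧
      ∀ m m' v : ℕ, m < m' → m' ≤ m + N → v < m / N →
        t m v < t m' v ∧ (v + 1 < m' / N → t m' (v + 1) < t m v) := by
  intro N hN
  have hS := surj_st bf1_st var1_st
  have hO := orth_st vert3_st vert4_st ip_st
  exact main_of hN (rep0_st ip_st hS hO)
    (key_st N hN (ip_st N hN) bf1_st bf2_st var1_st var2_st cnt_st (rep_st ip_st hS hO))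
    fac_st sep_st

end Pool.Agent.Results.MP_b1555f_an.CompleteInterlacing
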